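import Mathlib

/-!
# Drinfeld's graded Lie algebra `grt₁` and the Ihara bracket

`K` is a field, `F2 K` is the free Lie algebra over `K` on two generators `A = gA K`, `B = gB K`.
-/

noncomputable section

namespace MP446

universe u

section Defs

variable (K : Type u) [Field K]

/-- The free Lie algebra on two generators. -/
abbrev F2 : Type u := FreeLieAlgebra K (Fin 2)

/-- The generator `A`. -/
def gA : F2 K := FreeLieAlgebra.of K 0

/-- The generator `B`. -/
def gB : F2 K := FreeLieAlgebra.of K 1

/-- The element `C` with `A + B + C = 0`. -/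
def gC : F2 K := -gA K - gB K

variable {K}

/-- Evaluation `ψ(x, y)` of an element `ψ` of the free Lie algebra at two elements
`x`, `y` of a Lie algebra. -/
def ev {L : Type u} [LieRing L] [LieAlgebra K L] (x y : L) : F2 K →ₗ⁅K⁆ L :=
  FreeLieAlgebra.lift K ![x, y]

/-- The infinitesimal braid relations on four strands (indexed by `Fin 4`): the defining relations
of the Drinfeld-Kohno Lie algebra `𝔱₄`. -/
structure InfBraid {L : Type u} [LieRing L] (t : Fin 4 → Fin 4 → L) : Prop where
  symm : ∀ i j, t i j = t j i
  comm : ∀ i j k l, i ≠ j → i ≠ k → i ≠ l → j ≠ k → j ≠ l → k ≠ l → ⁅t i j, t k l⁆ = 0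
  rel : ∀ i j k, i ≠ j → i ≠ k → j ≠ k → ⁅t i j, t i k + t j k⁆ = 0

/-- Drinfeld's `grt₁(K)` (its polynomial, i.e. graded, version): the elements `ψ` of the free Lie
algebra on `A`, `B` satisfying the antisymmetry relation, the 3-cycle relation, the (infinitesimal)
hexagon relation and the pentagon relation in `𝔱₄`.  The strands `1, 2, 3, 4` of
Drinfeld are numbered `0, 1, 2, 3`, and an identity in `𝔱₄` is expressed by saying that
it holds for all families satisfying the infinitesimal braid relations in all Lie algebras. -/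
structure IsGRT (ψ : F2 K) : Prop where
  antisymm : ev (gB K) (gA K) ψ = -ψ
  cycle : ψ + ev (gB K) (gC K) ψ + ev (gC K) (gA K) ψ = 0
  hexagon : ⁅gB K, ψ⁆ + ⁅gC K, ev (gA K) (gC K) ψ⁆ = 0
  pentagon : ∀ (L : Type u) [LieRing L] [LieAlgebra K L] (t : Fin 4 → Fin 4 → L), InfBraid t →
    ev (t 0 1) (t 1 2 + t 1 3) ψ + ev (t 0 2 + t 1 2) (t 2 3) ψ =
      ev (t 1 2) (t 2 3) ψ + ev (t 0 1 + t 0 2) (t 1 3 + t 2 3) ψ + ev (t 0 1) (t 1 2) ψ

end Defs

section Dual

variable (L : Type u)

/-- The Lie algebra `L ⊕ εL` (`ε² = 0`) attached to a Lie algebra `L`; only used to construct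
derivations. -/
structure DualLie where
  /-- the component in `L` -/
  fst : L
  /-- the component in `εL` -/
  snd : L

variable {L}

/-- The bijection of `DualLie L` with `L × L`. -/
def DualLie.toProd : DualLie L ≃ L × L where
  toFun x := (x.fst, x.snd)
  invFun x := ⟨x.1, x.2⟩
  left_inv _ := rfl
  right_inv _ := rfl

@[ext] lemma DualLie.ext' {x y : DualLie L} (h1 : x.fst = y.fst) (h2 : x.snd = y.snd) : x = y := by
  cases x; cases y; simp_all

variable [LieRing L]

instance : AddCommGroup (DualLie L) := DualLie.toProd.addCommGroup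

@[simp] lemma DualLie.add_fst (x y : DualLie L) : (x + y).fst = x.fst + y.fst := rfl
@[simp] lemma DualLie.add_snd (x y : DualLie L) : (x + y).snd = x.snd + y.snd := rfl
@[simp] lemma DualLie.zero_fst : (0 : DualLie L).fst = 0 := rfl
@[simp] lemma DualLie.zero_snd : (0 : DualLie L).snd = 0 := rfl

instance : Bracket (DualLie L) (DualLie L) where
  bracket x y := ⟨⁅x.fst, y.fst⁆, ⁅x.fst, y.snd⁆ + ⁅x.snd, y.fst⁆⟩

@[simp] lemma DualLie.lie_fst (x y : DualLie L) : ⁅x, y⁆.fst = ⁅x.fst, y.fst⁆ := rfl
@[simp] lemma DualLie.lie_snd (x y : DualLie L) :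
    ⁅x, y⁆.snd = ⁅x.fst, y.snd⁆ + ⁅x.snd, y.fst⁆ := rfl

instance : LieRing (DualLie L) where
  add_lie x y z := by ext <;> simp; abel
  lie_add x y z := by ext <;> simp; abel
  lie_self x := by
    ext
    · simp
    · simp only [DualLie.lie_snd, DualLie.zero_snd]
      rw [← lie_skew x.fst x.snd, neg_add_cancel]
  leibniz_lie x y z := by
    ext
    · simp
    · simp only [DualLie.lie_snd, DualLie.lie_fst, DualLie.add_snd, lie_add, add_lie]
      rw [leibniz_lie x.fst y.fst z.snd, leibniz_lie x.fst y.snd z.fst,
        leibniz_lie x.snd y.fst z.fst]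
      abel

variable {K : Type*} [Field K] [LieAlgebra K L]

instance : Module K (DualLie L) := DualLie.toProd.module K

@[simp] lemma DualLie.smul_fst (c : K) (x : DualLie L) : (c • x).fst = c • x.fst := rfl
@[simp] lemma DualLie.smul_snd (c : K) (x : DualLie L) : (c • x).snd = c • x.snd := rfl

instance : LieAlgebra K (DualLie L) where
  lie_smul c x y := by ext <;> simp

/-- The first projection of `L ⊕ εL`. -/
def DualLie.fstHom : DualLie L →ₗ⁅K⁆ L where
  toFun x := x.fst
  map_add' _ _ := rfl
  map_smul' _ _ := rfl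
  map_lie' := rfl

end Dual

section Der

variable {K : Type u} [Field K]

/-- The Lie homomorphism `F2 K → F2 K ⊕ ε F2 K`, `A ↦ A`, `B ↦ B + ε ⁅B, s⁆`. -/
def dualLift (s : F2 K) : F2 K →ₗ⁅K⁆ DualLie (F2 K) :=
  FreeLieAlgebra.lift K ![(⟨gA K, 0⟩ : DualLie (F2 K)), ⟨gB K, ⁅gB K, s⁆⟩]

lemma dualLift_fst (s x : F2 K) : (dualLift s x).fst = x := by
  have h : (DualLie.fstHom (K := K)).comp (dualLift s) = LieHom.id := by
    apply FreeLieAlgebra.hom_ext
    intro i
    fin_cases i
    · simp only [dualLift, gA, LieHom.comp_apply, FreeLieAlgebra.lift_of_apply]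
      rfl
    · simp only [dualLift, gB, LieHom.comp_apply, FreeLieAlgebra.lift_of_apply]
      rfl
  exact LieHom.congr_fun h x

/-- The derivation `D_s` of the free Lie algebra with `D_s A = 0` and `D_s B = ⁅B, s⁆`. -/
def der (s : F2 K) : LieDerivation K (F2 K) (F2 K) where
  toFun x := (dualLift s x).snd
  map_add' x y := by rw [map_add]; rfl
  map_smul' c x := by rw [map_smul]; rfl
  leibniz' x y := by
    change (dualLift s ⁅x, y⁆).snd = _
    rw [LieHom.map_lie, DualLie.lie_snd, dualLift_fst, dualLift_fst]
    change ⁅x, (dualLift s y).snd⁆ + ⁅(dualLift s x).snd, y⁆ =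
      ⁅x, (dualLift s y).snd⁆ - ⁅y, (dualLift s x).snd⁆
    rw [← lie_skew y, sub_neg_eq_add]

@[simp] lemma der_gA (s : F2 K) : der s (gA K) = 0 := by
  change (dualLift s (gA K)).snd = 0
  simp [dualLift, gA]

@[simp] lemma der_gB (s : F2 K) : der s (gB K) = ⁅gB K, s⁆ := by
  change (dualLift s (gB K)).snd = _
  simp [dualLift, gB]

/-- Induction principle for the free Lie algebra on two generators. -/
lemma F2_induction {p : F2 K → Prop} (hA : p (gA K)) (hB : p (gB K))
    (hadd : ∀ x y, p x → p y → p (x + y)) (hsmul : ∀ (c : K) x, p x → p (c • x))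
    (hlie : ∀ x y, p x → p y → p ⁅x, y⁆) (x : F2 K) : p x := by
  let S : LieSubalgebra K (F2 K) :=
    { carrier := {x | p x}
      add_mem' := fun {a b} ha hb => hadd a b ha hb
      zero_mem' := by simpa using hsmul 0 _ hA
      smul_mem' := fun c {x} hx => hsmul c x hx
      lie_mem' := fun {a b} ha hb => hlie a b ha hb }
  let f : F2 K →ₗ⁅K⁆ S := FreeLieAlgebra.lift K ![⟨gA K, hA⟩, ⟨gB K, hB⟩]
  have h : S.incl.comp f = LieHom.id := by
    apply FreeLieAlgebra.hom_ext
    intro i
    fin_cases i
    · simp only [f, LieHom.comp_apply, FreeLieAlgebra.lift_of_apply]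
      rfl
    · simp only [f, LieHom.comp_apply, FreeLieAlgebra.lift_of_apply]
      rfl
  have h2 : ((f x : S) : F2 K) = x := LieHom.congr_fun h x
  have h3 := (f x).2
  rw [h2] at h3
  exact h3

lemma der_ext {D E : LieDerivation K (F2 K) (F2 K)} (hA : D (gA K) = E (gA K))
    (hB : D (gB K) = E (gB K)) : D = E := by
  ext x
  induction x using F2_induction with
  | hA => exact hA
  | hB => exact hB
  | hadd x y hx hy => rw [map_add, map_add, hx, hy]
  | hsmul c x hx => rw [map_smul, map_smul, hx]
  | hlie x y hx hy => rw [LieDerivation.apply_lie_eq_add, LieDerivation.apply_lie_eq_add, hx, hy]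

lemma der_add (s t : F2 K) : der (s + t) = der s + der t := by
  apply der_ext <;> simp

lemma der_smul (c : K) (s : F2 K) : der (c • s) = c • der s := by
  apply der_ext <;> simp

/-- The Ihara bracket `{s, t} = ⁅s, t⁆ + D_s t - D_t s`. -/
def iharaBracket (s t : F2 K) : F2 K := ⁅s, t⁆ + der s t - der t s

lemma der_ihara (s t : F2 K) : der (iharaBracket s t) = ⁅der s, der t⁆ := by
  apply der_ext
  · simp
  · rw [der_gB, LieDerivation.lie_apply, der_gB, der_gB, LieDerivation.apply_lie_eq_add,
      LieDerivation.apply_lie_eq_add, der_gB, der_gB, iharaBracket, lie_sub, lie_add,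
      leibniz_lie (gB K) s t]
    rw [← lie_skew s ⁅gB K, t⁆]
    abel

variable (K) in
/-- The Lie algebra whose underlying vector space is the free Lie algebra on `A`, `B`, with the
Ihara bracket. -/
def IharaLie : Type u := F2 K

instance : AddCommGroup (IharaLie K) := inferInstanceAs (AddCommGroup (F2 K))
instance : Module K (IharaLie K) := inferInstanceAs (Module K (F2 K))

/-- The identity map, from the free Lie algebra to `IharaLie K`. -/
def toIhara : F2 K ≃ₗ[K] IharaLie K := LinearEquiv.refl K (F2 K)

instance : Bracket (IharaLie K) (IharaLie K) where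
  bracket s t := toIhara (iharaBracket (toIhara.symm s) (toIhara.symm t))

lemma toIhara_lie (s t : F2 K) : ⁅toIhara s, toIhara t⁆ = toIhara (iharaBracket s t) := rfl

lemma ihara_add_left (s t u : F2 K) :
    iharaBracket (s + t) u = iharaBracket s u + iharaBracket t u := by
  simp only [iharaBracket, add_lie, der_add, map_add, LieDerivation.add_apply]
  abel

lemma ihara_add_right (s t u : F2 K) :
    iharaBracket s (t + u) = iharaBracket s t + iharaBracket s u := by
  simp only [iharaBracket, lie_add, der_add, map_add, LieDerivation.add_apply]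
  abel

lemma ihara_smul_right (c : K) (s t : F2 K) :
    iharaBracket s (c • t) = c • iharaBracket s t := by
  simp only [iharaBracket, lie_smul, der_smul, map_smul, LieDerivation.smul_apply, smul_add,
    smul_sub]

lemma ihara_leibniz (s t u : F2 K) :
    iharaBracket s (iharaBracket t u) =
      iharaBracket (iharaBracket s t) u + iharaBracket t (iharaBracket s u) := by
  have e1 : iharaBracket s (iharaBracket t u) =
      ⁅s, iharaBracket t u⁆ + der s (iharaBracket t u) - der (iharaBracket t u) s := rfl
  have e2 : iharaBracket (iharaBracket s t) u =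
      ⁅iharaBracket s t, u⁆ + der (iharaBracket s t) u - der u (iharaBracket s t) := rfl
  have e3 : iharaBracket t (iharaBracket s u) =
      ⁅t, iharaBracket s u⁆ + der t (iharaBracket s u) - der (iharaBracket s u) t := rfl
  rw [e1, e2, e3, der_ihara, der_ihara, der_ihara]
  simp only [iharaBracket, LieDerivation.lie_apply, map_add, map_sub,
    LieDerivation.apply_lie_eq_add, lie_add, lie_sub, add_lie, sub_lie]
  rw [leibniz_lie s t u, ← lie_skew (der t s) u, ← lie_skew t (der u s)]
  abel

instance : LieRing (IharaLie K) where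
  add_lie s t u := ihara_add_left _ _ _
  lie_add s t u := ihara_add_right _ _ _
  lie_self s := by
    change iharaBracket _ _ = 0
    simp [iharaBracket]
  leibniz_lie s t u := ihara_leibniz _ _ _

instance : LieAlgebra K (IharaLie K) where
  lie_smul c s t := ihara_smul_right c _ _

end Der

end MP446
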